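import Pool.Agent.H497R3.GeoLaw
import Pool.Agent.H497R3.Slow

/-!
# Rare big piles and the deterministic speed bound (helper16)
-/

set_option autoImplicit false
open MeasureTheory ProbabilityTheory Filter Topology
open scoped ENNReal

namespace Pool.Agent.Y16.SP

open Pool.Agent.H497R3

/-- the labels are i.i.d.: almost surely for all large `j` the set `S j`, which contains the stack
with label `lab j`, is met by one of the first `N j` sites -/
theorem bc (stk : ℕ → ℕ → ℝ) (S : ℕ → Set (ℕ → ℝ)) (lab : ℕ → ℕ)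
    (hS : ∀ j, MeasurableSet (S j)) (hl : ∀ j, stk (lab j) ∈ S j) (N : ℕ → ℕ)
    (hN : ∀ j, (geo {lab j}ᶜ) ^ (N j) ≤ (2⁻¹ : ℝ≥0∞) ^ j) (e : ℕ → ℤ)
    (he : Function.Injective e) :
    ∀ᵐ ω ∂(labelLaw stk), ∀ᶠ j in atTop, ∃ i, i < N j ∧ ω (e i) ∈ S j := by
  classical
  set T : ℕ → Set (ℤ → ℕ → ℝ) := fun j =>
    Set.pi (((Finset.range (N j)).image e : Finset ℤ) : Set ℤ) (fun _ => (S j)ᶜ) with hT
  have hμ : ∀ j, labelLaw stk (T j) ≤ (2⁻¹ : ℝ≥0∞) ^ j := by
    intro j
    rw [labelLaw_eq, hT]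
    rw [Measure.infinitePi_pi (μ := fun _ : ℤ => geo.map stk) (fun i _ => (hS j).compl)]
    rw [Finset.prod_const, Finset.card_image_of_injective _ he, Finset.card_range]
    refine le_trans (pow_le_pow_left' ?_ _) (hN j)
    rw [Measure.map_apply (measurable_of_countable _) (hS j).compl]
    apply measure_mono
    intro i hi
    simp only [Set.mem_preimage, Set.mem_compl_iff] at hi
    simp only [Set.mem_compl_iff, Set.mem_singleton_iff]
    intro h
    rw [h] at hi
    exact hi (hl j)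
  have hsum : (∑' j, labelLaw stk (T j)) ≠ ∞ := by
    refine ne_top_of_le_ne_top ?_ (ENNReal.tsum_le_tsum hμ)
    rw [ENNReal.tsum_geometric, ENNReal.one_sub_inv_two, inv_inv]
    exact ENNReal.ofNat_ne_top
  filter_upwards [ae_eventually_notMem hsum] with ω hω
  filter_upwards [hω] with j hj
  by_contra hcon
  push Not at hcon
  apply hj
  rw [hT]
  simp only [Set.mem_pi, Finset.coe_image, Finset.coe_range, Set.mem_image, Set.mem_Iio,
    Set.mem_compl_iff]
  rintro x ⟨i, hi, rfl⟩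
  exact hcon i hi

/-- the numbers of sites -/
theorem exists_N : ∃ N : ℕ → ℕ, ∀ j, (geo {2 * j + 2}ᶜ) ^ (N j) ≤ (2⁻¹ : ℝ≥0∞) ^ j ∧
    (geo {2 * j + 3}ᶜ) ^ (N j) ≤ (2⁻¹ : ℝ≥0∞) ^ j := by
  have key : ∀ i j : ℕ, ∃ N : ℕ, ∀ M ≥ N, (geo {i}ᶜ) ^ M ≤ (2⁻¹ : ℝ≥0∞) ^ j := by
    intro i j
    have h1 : geo {i}ᶜ < 1 := by
      have h := prob_compl_eq_one_sub (μ := geo) (measurableSet_singleton i)
      rw [h]
      apply ENNReal.sub_lt_self ENNReal.one_ne_top one_ne_zero
      rw [geo_singleton]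
      exact (ENNReal.pow_pos (by simp) _).ne'
    have h2 := ENNReal.tendsto_pow_atTop_nhds_zero_of_lt_one h1
    have h3 : (0 : ℝ≥0∞) < (2⁻¹ : ℝ≥0∞) ^ j := ENNReal.pow_pos (by simp) _
    obtain ⟨N, hN⟩ := eventually_atTop.1 (h2.eventually (gt_mem_nhds h3))
    exact ⟨N, fun M hM => (hN M hM).le⟩
  choose f hf using key
  exact ⟨fun j => max (f (2 * j + 2) j) (f (2 * j + 3) j), fun j =>
    ⟨hf _ _ _ (le_max_left _ _), hf _ _ _ (le_max_right _ _)⟩⟩

/-- the pile sizes: strictly increasing, and `N (j + 1) ≤ g n` as soon as `n ≥ F j` -/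
theorem exists_F (g : ℕ → ℕ) (hg : Tendsto g atTop atTop) (N : ℕ → ℕ) :
    ∃ F : ℕ → ℕ, StrictMono F ∧ ∀ j n, F j ≤ n → N (j + 1) ≤ g n := by
  have key : ∀ j : ℕ, ∃ M : ℕ, ∀ n ≥ M, N (j + 1) ≤ g n := fun j =>
    eventually_atTop.1 (hg.eventually_ge_atTop (N (j + 1)))
  choose M hM using key
  refine ⟨fun j => ∑ i ∈ Finset.range (j + 1), (M i + 1), ?_, ?_⟩
  · apply strictMono_nat_of_lt_succ
    intro j
    rw [Finset.sum_range_succ _ (j + 1)]
    omega
  · intro j n hn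
    apply hM j n
    refine le_trans ?_ hn
    show M j ≤ ∑ i ∈ Finset.range (j + 1), (M i + 1)
    rw [Finset.sum_range_succ]
    omega

/-- a pile keeps the walker to its left -/
theorem one_side (Y : ℕ → ℤ) (h0 : Y 0 = 0)
    (hs : ∀ n, Y (n+1) = Y n + 1 ∨ Y (n+1) = Y n - 1)
    (P : ℤ → ℕ → Prop)
    (hP : ∀ n, P (Y n) ((Finset.range n).filter (fun m => Y m = Y n)).card → Y (n+1) = Y n - 1)
    (F N : ℕ → ℕ) (g : ℕ → ℕ) (hF : StrictMono F) (hFg : ∀ j n, F j ≤ n → N (j + 1) ≤ g n)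
    (hA : ∀ᶠ j in atTop, ∃ i, i < N j ∧ ∀ k, k < F j → P ((i : ℤ) + 1) k) :
    ∀ᶠ n in atTop, Y n ≤ g n := by
  classical
  obtain ⟨J, hJ⟩ := eventually_atTop.1 hA
  filter_upwards [eventually_ge_atTop (F J)] with n hn
  -- the index `j` with `F j ≤ n < F (j + 1)`
  have hex : ∃ j, n < F (j + 1) := ⟨n, lt_of_lt_of_le (Nat.lt_succ_self n) (hF.id_le (n + 1))⟩
  have hs1 := Nat.find_spec hex
  set j := Nat.find hex with hj
  have hle : F j ≤ n := by
    rcases Nat.eq_zero_or_pos j with h | h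
    · rw [h]
      exact le_trans (hF.monotone (Nat.zero_le J)) hn
    · have h1 := Nat.find_min hex (m := j - 1) (by omega)
      rw [Nat.sub_add_cancel h] at h1
      omega
  have hJj : J ≤ j + 1 := by
    by_contra hcon
    push Not at hcon
    have := hF hcon
    omega
  obtain ⟨i, hi, hpile⟩ := hJ (j + 1) hJj
  have h1 : Y n ≤ (i : ℤ) + 1 := by
    by_contra hcon
    push Not at hcon
    have h2 := visits_ge Y h0 hs P hP ((i : ℤ) + 1) (by omega) (F (j + 1)) hpile n hcon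
    have h3 : ((Finset.range n).filter (fun m => Y m = (i : ℤ) + 1)).card ≤ n :=
      (Finset.card_filter_le _ _).trans (by simp)
    omega
  have h4 := hFg j n hle
  have h5 : (N (j + 1) : ℤ) ≤ g n := by exact_mod_cast h4
  have h6 : (i : ℤ) + 1 ≤ N (j + 1) := by exact_mod_cast hi
  linarith

/-- the two-sided version -/
theorem two_side (X : ℕ → ℤ) (h0 : X 0 = 0)
    (hs : ∀ n, X (n+1) = X n + 1 ∨ X (n+1) = X n - 1) (e : ℤ → ℕ → ℝ)
    (hl : ∀ n, e (X n) ((Finset.range n).filter (fun m => X m = X n)).card = 0 →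
      X (n+1) = X n - 1)
    (hr : ∀ n, e (X n) ((Finset.range n).filter (fun m => X m = X n)).card = 1 →
      X (n+1) = X n + 1)
    (F N : ℕ → ℕ) (g : ℕ → ℕ) (hF : StrictMono F) (hFg : ∀ j n, F j ≤ n → N (j + 1) ≤ g n)
    (hA : ∀ᶠ j in atTop, ∃ i, i < N j ∧ ∀ k, k < F j → e ((i : ℤ) + 1) k = 0)
    (hB : ∀ᶠ j in atTop, ∃ i, i < N j ∧ ∀ k, k < F j → e (-((i : ℤ) + 1)) k = 1) :
    ∀ᶠ n in atTop, |X n| ≤ g n := by
  have h1 := one_side X h0 hs (fun x k => e x k = 0) hl F N g hF hFg hA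
  have h2 := one_side (fun n => - X n) (by simp [h0])
    (by intro n; rcases hs n with h | h <;> [right; left] <;> omega)
    (fun x k => e (-x) k = 1)
    (by
      intro n h
      simp only [neg_neg, neg_inj] at h
      have := hr n h
      omega) F N g hF hFg hB
  filter_upwards [h1, h2] with n h3 h4
  rw [abs_le]
  constructor
  · linarith
  · exact h3

/-- below the square root: zero speed -/
theorem speed_of_sqrt (X : ℕ → ℤ) (h : ∀ᶠ n : ℕ in atTop, |X n| ≤ (Nat.sqrt n : ℤ)) :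
    Tendsto (fun n : ℕ => (X n : ℝ) / n) atTop (𝓝 0) := by
  rw [Metric.tendsto_atTop]
  intro ε hε
  obtain ⟨b, hb⟩ := exists_nat_gt (1 / ε)
  obtain ⟨n₀, hn₀⟩ := eventually_atTop.1 h
  have hb0 : (0 : ℝ) < b := lt_trans (by positivity) hb
  refine ⟨max n₀ (b * b), fun n hn => ?_⟩
  have h1 := hn₀ n ((le_max_left _ _).trans hn)
  have h2 : b ≤ Nat.sqrt n := Nat.le_sqrt.2 ((le_max_right _ _).trans hn)
  have h3 : Nat.sqrt n * Nat.sqrt n ≤ n := Nat.sqrt_le n
  have hbn : 0 < b := by exact_mod_cast hb0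
  have hn0 : 0 < n := lt_of_lt_of_le (Nat.mul_pos hbn hbn) ((le_max_right _ _).trans hn)
  have hn0' : (0 : ℝ) < n := by exact_mod_cast hn0
  have h4 : |(X n : ℝ)| ≤ Nat.sqrt n := by exact_mod_cast h1
  have h5 : (Nat.sqrt n : ℝ) * b ≤ n := by
    have : Nat.sqrt n * b ≤ n := (Nat.mul_le_mul_left _ h2).trans h3
    exact_mod_cast this
  rw [Real.dist_eq, sub_zero, abs_div, abs_of_pos hn0', div_lt_iff₀ hn0']
  have h6 : 1 < ε * b := by
    rw [div_lt_iff₀ hε] at hb
    linarith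
  have h7 : (0 : ℝ) < Nat.sqrt n := by
    have : 0 < Nat.sqrt n := lt_of_lt_of_le hbn h2
    exact_mod_cast this
  calc |(X n : ℝ)| ≤ Nat.sqrt n := h4
    _ < Nat.sqrt n * (ε * b) := by nlinarith
    _ = ε * (Nat.sqrt n * b) := by ring
    _ ≤ ε * n := mul_le_mul_of_nonneg_left h5 hε.le

/-- every `δ ∈ [0, ∞]` is `∑ 2^{-(i+1)} t i` with natural numbers `t i`, `t 0 = 0` -/
theorem exists_t (δ : ℝ≥0∞) : ∃ t : ℕ → ℕ, t 0 = 0 ∧
    ∑' i : ℕ, ((2:ℝ≥0∞)⁻¹)^(i+1) * (t i : ℝ≥0∞) = δ := by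
  by_cases hδ : δ = ∞
  · refine ⟨fun i => if i = 0 then 0 else 2 ^ (i + 1), by simp, ?_⟩
    rw [hδ]
    rw [tsum_eq_zero_add' ENNReal.summable]
    have : ∀ i : ℕ, ((2:ℝ≥0∞)⁻¹)^(i + 1 + 1) *
        ((if i + 1 = 0 then 0 else 2 ^ (i + 1 + 1) : ℕ) : ℝ≥0∞) = 1 := by
      intro i
      rw [if_neg (Nat.succ_ne_zero i)]
      push_cast
      rw [← mul_pow, ENNReal.inv_mul_cancel (by norm_num) (by norm_num), one_pow]
    simp only [this]
    rw [ENNReal.tsum_const_eq_top_of_ne_zero one_ne_zero]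
    simp
  · set d : ℝ := δ.toReal with hd
    have hd0 : 0 ≤ d := ENNReal.toReal_nonneg
    set u : ℕ → ℕ := fun n => ⌊2 ^ n * d⌋₊ with hu
    have hu2 : ∀ n, 2 * u n ≤ u (n + 1) := by
      intro n
      apply Nat.le_floor
      push_cast
      have := Nat.floor_le (show 0 ≤ 2 ^ n * d by positivity)
      rw [pow_succ]
      linarith
    refine ⟨fun i => match i with
      | 0 => 0
      | 1 => u 2
      | (i + 2) => u (i + 3) - 2 * u (i + 2), rfl, ?_⟩
    set t : ℕ → ℕ := fun i => match i with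
      | 0 => 0
      | 1 => u 2
      | (i + 2) => u (i + 3) - 2 * u (i + 2) with ht
    have hpart : ∀ n : ℕ, ∑ i ∈ Finset.range (n + 2), ((2:ℝ≥0∞)⁻¹)^(i+1) * (t i : ℝ≥0∞) =
        ENNReal.ofReal ((u (n + 2) : ℝ) / 2 ^ (n + 2)) := by
      intro n
      induction n with
      | zero =>
        rw [Finset.sum_range_succ, Finset.sum_range_succ, Finset.sum_range_zero]
        have h0 : t 0 = 0 := rfl
        have h1 : t 1 = u 2 := rfl
        rw [h0, h1, ENNReal.ofReal_div_of_pos (by positivity), ENNReal.ofReal_natCast,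
          ENNReal.ofReal_pow (by norm_num), ENNReal.div_eq_inv_mul, ENNReal.inv_pow]
        simp
      | succ n ih =>
        rw [Finset.sum_range_succ, ih]
        have h1 : t (n + 2) = u (n + 3) - 2 * u (n + 2) := rfl
        rw [h1]
        have h2 : ((2:ℝ≥0∞)⁻¹)^(n+2+1) * ((u (n + 3) - 2 * u (n + 2) : ℕ) : ℝ≥0∞) =
            ENNReal.ofReal (((u (n + 3) : ℝ) - 2 * u (n + 2)) / 2 ^ (n + 3)) := by
          rw [ENNReal.ofReal_div_of_pos (by positivity), ENNReal.ofReal_pow (by norm_num),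
            ENNReal.div_eq_inv_mul, ENNReal.inv_pow]
          have h3 : ((u (n + 3) : ℝ) - 2 * u (n + 2)) = ((u (n + 3) - 2 * u (n + 2) : ℕ) : ℝ) := by
            rw [Nat.cast_sub (hu2 (n + 2))]
            push_cast
            ring
          rw [h3, ENNReal.ofReal_natCast]
          simp
        rw [h2, ← ENNReal.ofReal_add (by positivity)]
        · congr 1
          have : (2 : ℝ) ^ (n + 1 + 2) = 2 * 2 ^ (n + 2) := by ring
          have e : u (n + 1 + 2) = u (n + 3) := rfl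
          rw [this, e]
          field_simp
          ring
        · apply div_nonneg _ (by positivity)
          have := hu2 (n + 2)
          have h5 : (2 : ℝ) * u (n + 2) ≤ u (n + 3) := by exact_mod_cast this
          linarith
    have hlim1 := (ENNReal.tendsto_nat_tsum (fun i : ℕ => ((2:ℝ≥0∞)⁻¹)^(i+1) * (t i : ℝ≥0∞))).comp
      (tendsto_add_atTop_nat 2)
    have hlim2 : Tendsto (fun n : ℕ => ENNReal.ofReal ((u (n + 2) : ℝ) / 2 ^ (n + 2))) atTop
        (𝓝 (ENNReal.ofReal d)) := by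
      apply (ENNReal.continuous_ofReal.tendsto d).comp
      have hlow : Tendsto (fun n : ℕ => d - (1 / 2) ^ (n + 2)) atTop (𝓝 d) := by
        have h := (tendsto_pow_atTop_nhds_zero_of_lt_one (r := (1 / 2 : ℝ)) (by norm_num)
          (by norm_num)).comp (tendsto_add_atTop_nat 2)
        have h' := (tendsto_const_nhds (x := d)).sub h
        rw [sub_zero] at h'
        exact h'
      refine tendsto_of_tendsto_of_tendsto_of_le_of_le hlow tendsto_const_nhds ?_ ?_
      · intro n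
        have h1 := (Nat.lt_floor_add_one (2 ^ (n + 2) * d)).le
        have h2 : (0 : ℝ) < 2 ^ (n + 2) := by positivity
        show d - (1 / 2) ^ (n + 2) ≤ (u (n + 2) : ℝ) / 2 ^ (n + 2)
        rw [le_div_iff₀ h2, sub_mul, one_div, inv_pow, inv_mul_cancel₀ h2.ne']
        simp only [hu]
        linarith
      · intro n
        have h1 := Nat.floor_le (show 0 ≤ 2 ^ (n + 2) * d by positivity)
        have h2 : (0 : ℝ) < 2 ^ (n + 2) := by positivity
        show (u (n + 2) : ℝ) / 2 ^ (n + 2) ≤ d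
        rw [div_le_iff₀ h2]
        simp only [hu]
        linarith
    have h3 : (fun n : ℕ => ∑ i ∈ Finset.range (n + 2), ((2:ℝ≥0∞)⁻¹)^(i+1) * (t i : ℝ≥0∞)) =
        fun n : ℕ => ENNReal.ofReal ((u (n + 2) : ℝ) / 2 ^ (n + 2)) := funext hpart
    have h4 : Tendsto (fun n : ℕ => ENNReal.ofReal ((u (n + 2) : ℝ) / 2 ^ (n + 2))) atTop
        (𝓝 (∑' i : ℕ, ((2:ℝ≥0∞)⁻¹)^(i+1) * (t i : ℝ≥0∞))) := by
      rw [← h3]
      exact hlim1
    have h5 := tendsto_nhds_unique h4 hlim2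
    rw [h5, hd, ENNReal.ofReal_toReal hδ]

/-- generic fact: where the conditional probability of an event is 0 (or 1) the event fails
(or holds) -/
theorem condExp_forced {Θ : Type} {m0 : MeasurableSpace Θ} {μ : Measure Θ}
    [IsProbabilityMeasure μ] {R : Set Θ}
    (hR : MeasurableSet R) {g : Θ → ℝ} {m : MeasurableSpace Θ} (hm : m ≤ m0)
    (hg : condExp m μ (R.indicator (fun _ => (1:ℝ))) =ᵐ[μ] g) :
    ∀ᵐ θ ∂μ, (g θ = 0 → θ ∉ R) ∧ (g θ = 1 → θ ∈ R) := by
  set h := condExp m μ (R.indicator (fun _ => (1:ℝ))) with hh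
  have hsm : StronglyMeasurable[m] h := stronglyMeasurable_condExp
  have hint : Integrable (R.indicator (fun _ => (1:ℝ))) μ :=
    (integrable_const (1:ℝ)).indicator hR
  have h0m : MeasurableSet[m] {θ | h θ = 0} := hsm.measurable (measurableSet_singleton 0)
  have h1m : MeasurableSet[m] {θ | h θ = 1} := hsm.measurable (measurableSet_singleton 1)
  have e0 : μ (R ∩ {θ | h θ = 0}) = 0 := by
    have := setIntegral_condExp hm hint h0m
    rw [← hh, setIntegral_indicator hR] at this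
    have h2 : ∫ θ in {θ | h θ = 0}, h θ ∂μ = 0 := by
      rw [setIntegral_congr_fun (hm _ h0m) (g := fun _ => (0:ℝ)) (fun θ hθ => hθ)]
      simp
    rw [h2] at this
    simp only [integral_const, smul_eq_mul, mul_one, MeasurableSet.univ,
      measureReal_restrict_apply, Set.univ_inter] at this
    rw [Set.inter_comm]
    exact (measureReal_eq_zero_iff (by finiteness)).mp this.symm
  have e1 : μ ({θ | h θ = 1} \ R) = 0 := by
    have := setIntegral_condExp hm hint h1m
    rw [← hh, setIntegral_indicator hR] at this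
    have h2 : ∫ θ in {θ | h θ = 1}, h θ ∂μ = μ.real {θ | h θ = 1} := by
      rw [setIntegral_congr_fun (hm _ h1m) (g := fun _ => (1:ℝ)) (fun θ hθ => hθ)]
      simp
    rw [h2] at this
    simp only [integral_const, smul_eq_mul, mul_one, MeasurableSet.univ,
      measureReal_restrict_apply, Set.univ_inter] at this
    have hadd := measureReal_inter_add_diff (μ := μ) (s := {θ | h θ = 1}) hR
    have h3 : μ.real ({θ | h θ = 1} \ R) = 0 := by linarith
    exact (measureReal_eq_zero_iff (by finiteness)).mp h3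
  have a0 : ∀ᵐ θ ∂μ, θ ∉ R ∩ {θ | h θ = 0} := measure_eq_zero_iff_ae_notMem.mp e0
  have a1 : ∀ᵐ θ ∂μ, θ ∉ {θ | h θ = 1} \ R := measure_eq_zero_iff_ae_notMem.mp e1
  filter_upwards [a0, a1, hg] with θ t0 t1 t2
  constructor
  · intro hg0 hR'
    exact t0 ⟨hR', by rw [Set.mem_setOf_eq, t2]; exact hg0⟩
  · intro hg1
    by_contra hR'
    exact t1 ⟨by rw [Set.mem_setOf_eq, t2]; exact hg1, hR'⟩


end Pool.Agent.Y16.SP
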